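import Mathlib

/-! # The combinatorics of the exponents -/

set_option autoImplicit false

namespace Pool.Agent.Q122.DMod

/-- `A m = (4 ^ m - 1) / 3`, the truncations of `-1/3` in the 2-adic integers. -/
def A : ℕ → ℕ
  | 0 => 0
  | m + 1 => 4 * A m + 1

lemma three_A (m : ℕ) : 3 * A m + 1 = 4 ^ m := by
  induction m with
  | zero => rfl
  | succ m ih => rw [A, pow_succ]; omega

lemma A_succ' (m : ℕ) : A (m + 1) = A m + 4 ^ m := by
  rw [A, ← three_A]; omega

lemma choose_add_pow (v K u : ℕ) : (((v + 2 ^ K).choose u : ℕ) : ZMod 2) =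
    (v.choose u : ZMod 2) + if 2 ^ K ≤ u then (v.choose (u - 2 ^ K) : ZMod 2) else 0 := by
  have h1 : ((1 + Polynomial.X : Polynomial (ZMod 2)) ^ (v + 2 ^ K)) =
      (1 + Polynomial.X) ^ v + (1 + Polynomial.X) ^ v * Polynomial.X ^ (2 ^ K) := by
    rw [pow_add, add_pow_char_pow (p := 2), one_pow, mul_add, mul_one]
  have h2 := congrArg (fun f => Polynomial.coeff f u) h1
  simp only [Polynomial.coeff_add, Polynomial.coeff_one_add_X_pow, Polynomial.coeff_mul_X_pow'] at h2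
  exact h2

/-- The set of `t` for which the binomial coefficient of `-1/3` over `t` is odd. -/
def T (t : ℕ) : Prop := ((A t).choose t : ZMod 2) = 1

lemma stable {N t : ℕ} (h : t < 4 ^ N) (s : ℕ) :
    (((A (N + 1) + s).choose t : ℕ) : ZMod 2) = (((A N + s).choose t : ℕ) : ZMod 2) := by
  have h4 : (4 : ℕ) ^ N = 2 ^ (2 * N) := by rw [pow_mul]; norm_num
  have h5 : A (N + 1) + s = (A N + s) + 2 ^ (2 * N) := by rw [A_succ', h4]; ring
  rw [h5, choose_add_pow, if_neg, add_zero]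
  rw [← h4]
  omega

lemma stable' {N t : ℕ} (h : t < 4 ^ N) (s : ℕ) (j : ℕ) :
    (((A (N + j) + s).choose t : ℕ) : ZMod 2) = (((A N + s).choose t : ℕ) : ZMod 2) := by
  induction j with
  | zero => rfl
  | succ j ih =>
    rw [← ih, ← add_assoc]
    exact stable (lt_of_lt_of_le h (Nat.pow_le_pow_right (by norm_num) (by omega))) s

lemma T_iff {N t : ℕ} (h : t < 4 ^ N) : T t ↔ ((A N).choose t : ZMod 2) = 1 := by
  unfold T
  have ht : t < 4 ^ t := Nat.lt_pow_self (by norm_num)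
  have h1 := stable' ht 0 N
  have h2 := stable' h 0 t
  rw [add_zero, add_zero] at h1 h2
  rw [← h1, ← h2, add_comm]

lemma T_zero : T 0 := by simp [T]

lemma A_lt (m : ℕ) : A m < 4 ^ m := by rw [← three_A]; omega

lemma T_A (m : ℕ) : T (A m) := by
  rw [T_iff (A_lt m)]
  simp

lemma T_le {m t : ℕ} (ht : T t) (h : t < 4 ^ m) : t ≤ A m := by
  rw [T_iff h] at ht
  by_contra hlt
  rw [Nat.choose_eq_zero_of_lt (by omega)] at ht
  simp at ht

lemma T_add (m t : ℕ) (h : t < 4 ^ m) : T (4 ^ m + t) ↔ T t := by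
  have h4 : (4 : ℕ) ^ m = 2 ^ (2 * m) := by rw [pow_mul]; norm_num
  have h1 : 4 ^ m + t < 4 ^ (m + 1) := by rw [pow_succ]; omega
  rw [T_iff h1, T_iff h, A_succ', h4, choose_add_pow, if_pos (by omega)]
  have h2 := A_lt m
  rw [Nat.choose_eq_zero_of_lt (n := A m) (by omega)]
  simp

lemma T_pow (m : ℕ) : T (4 ^ m) := by
  have := (T_add m 0 (by positivity)).2 T_zero
  simpa using this

open Classical in
/-- The negative exponents `-s` in level `i`. -/
noncomputable def Neg (i : ℕ) : Finset ℕ :=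
  (Finset.Icc 1 i).filter fun s => ∃ t, T t ∧ s ≤ t ∧ 2 * t ≤ i + s

lemma mem_Neg {i s : ℕ} : s ∈ Neg i ↔ 1 ≤ s ∧ ∃ t, T t ∧ s ≤ t ∧ 2 * t ≤ i + s := by
  classical
  simp only [Neg, Finset.mem_filter, Finset.mem_Icc]
  constructor
  · rintro ⟨⟨h1, _⟩, h⟩
    exact ⟨h1, h⟩
  · rintro ⟨h1, t, ht, h2, h3⟩
    exact ⟨⟨h1, by omega⟩, t, ht, h2, h3⟩

lemma Neg_card_le {i m : ℕ} (h : i < 4 ^ m) : (Neg i).card ≤ A m := by
  have : Neg i ⊆ Finset.Icc 1 (A m) := by
    intro s hs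
    obtain ⟨h1, t, ht, h2, h3⟩ := mem_Neg.1 hs
    have := T_le ht (m := m) (by omega)
    exact Finset.mem_Icc.2 ⟨h1, by omega⟩
  have := Finset.card_le_card this
  simpa using this

lemma Neg_card_step {i m : ℕ} (h1 : 4 ^ m ≤ i) (h3 : i ≤ 2 * 4 ^ m) :
    (Neg i).card ≤ A m + (i - 4 ^ m + 1) + (Neg (i - 4 ^ m)).card := by
  classical
  have hsub : Neg i ⊆ Finset.Icc 1 (A m) ∪ Finset.Icc (2 * 4 ^ m - i) (4 ^ m) ∪
      (Neg (i - 4 ^ m)).image (fun s => 4 ^ m + s) := by
    intro s hs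
    obtain ⟨hs1, t, ht, hst, hti⟩ := mem_Neg.1 hs
    rw [Finset.mem_union, Finset.mem_union, Finset.mem_Icc, Finset.mem_Icc, Finset.mem_image]
    by_cases ha : s ≤ A m
    · exact Or.inl (Or.inl ⟨hs1, ha⟩)
    have ht4 : 4 ^ m ≤ t := by
      by_contra hlt
      have := T_le ht (m := m) (by omega)
      omega
    by_cases hb : s ≤ 4 ^ m
    · exact Or.inl (Or.inr ⟨by omega, hb⟩)
    · right
      obtain ⟨t', rfl⟩ := Nat.exists_eq_add_of_le ht4
      have ht' : t' ≤ A m := by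
        have := T_le ht (m := m + 1) (by omega)
        rw [A_succ'] at this
        omega
      have hA := A_lt m
      refine ⟨s - 4 ^ m, mem_Neg.2 ⟨by omega, t', (T_add m t' (by omega)).1 ht, by omega,
        by omega⟩, by omega⟩
  refine (Finset.card_le_card hsub).trans ?_
  refine (Finset.card_union_le _ _).trans ?_
  refine add_le_add ((Finset.card_union_le _ _).trans ?_) Finset.card_image_le
  simp only [Nat.card_Icc]
  omega

lemma Neg_card_bound (i : ℕ) : 5 * (Neg i).card ≤ 4 * i + 1 := by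
  rcases Nat.eq_zero_or_pos i with rfl | hi
  · have := Neg_card_le (i := 0) (m := 0) (by norm_num)
    have h0 : A 0 = 0 := rfl
    omega
  · obtain ⟨m, hm1, hm2⟩ : ∃ m, 4 ^ m ≤ i ∧ i < 4 ^ (m + 1) :=
      ⟨Nat.log 4 i, Nat.pow_log_le_self 4 (by omega), Nat.lt_pow_succ_log_self (by norm_num) i⟩
    have h3 := three_A m
    by_cases h : i ≤ 5 * A m + 1
    · have h4 := Neg_card_step hm1 (by omega)
      have h5 := Neg_card_le (i := i - 4 ^ m) (m := m) (by omega)
      omega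
    · have h4 := Neg_card_le hm2
      rw [A] at h4
      omega

lemma Neg_card_five (m : ℕ) : 4 * A m + 1 ≤ (Neg (5 * A m + 1)).card := by
  have h3 := three_A m
  have hsub : Finset.Icc 1 (4 * A m + 1) ⊆ Neg (5 * A m + 1) := by
    intro s hs
    rw [Finset.mem_Icc] at hs
    rw [mem_Neg]
    refine ⟨hs.1, ?_⟩
    by_cases h1 : s ≤ A m
    · exact ⟨A m, T_A m, h1, by omega⟩
    by_cases h2 : s ≤ 4 ^ m
    · exact ⟨4 ^ m, T_pow m, h2, by omega⟩
    · refine ⟨A (m + 1), T_A (m + 1), by rw [A]; omega, by rw [A]; omega⟩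
  have := Finset.card_le_card hsub
  simpa using this

/-- The exponents in level `i`. -/
noncomputable def Exps (i : ℕ) : Finset ℤ :=
  Finset.Icc 0 (i : ℤ) ∪ (Neg i).image (fun s : ℕ => -(s : ℤ))

lemma mem_Exps {i : ℕ} {z : ℤ} : z ∈ Exps i ↔ ∃ a t : ℕ, T t ∧ a + t ≤ i ∧ z = a - t := by
  unfold Exps
  rw [Finset.mem_union, Finset.mem_Icc, Finset.mem_image]
  constructor
  · rintro (⟨h1, h2⟩ | ⟨s, hs, rfl⟩)
    · exact ⟨z.toNat, 0, T_zero, by omega, by omega⟩
    · obtain ⟨hs1, t, ht, hst, hti⟩ := mem_Neg.1 hs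
      exact ⟨t - s, t, ht, by omega, by omega⟩
  · rintro ⟨a, t, ht, hat, rfl⟩
    by_cases h : t ≤ a
    · left; omega
    · right
      exact ⟨t - a, mem_Neg.2 ⟨by omega, t, ht, by omega, by omega⟩, by omega⟩

lemma card_Exps (i : ℕ) : (Exps i).card = i + 1 + (Neg i).card := by
  classical
  unfold Exps
  rw [Finset.card_union_of_disjoint, Int.card_Icc, Finset.card_image_of_injective]
  · omega
  · intro a b h
    simpa using h
  · rw [Finset.disjoint_left]
    intro z hz hz'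
    rw [Finset.mem_Icc] at hz
    obtain ⟨s, hs, rfl⟩ := Finset.mem_image.1 hz'
    have := (mem_Neg.1 hs).1
    omega

lemma card_Exps_le (i : ℕ) : 5 * (Exps i).card ≤ 9 * i + 6 := by
  rw [card_Exps]
  have := Neg_card_bound i
  omega

lemma card_Exps_five (m : ℕ) : 9 * A m + 3 ≤ (Exps (5 * A m + 1)).card := by
  rw [card_Exps]
  have := Neg_card_five m
  omega

lemma card_Exps_three (m : ℕ) : (Exps (3 * A m)).card ≤ 4 * A m + 1 := by
  rw [card_Exps]
  have := Neg_card_le (i := 3 * A m) (m := m) (by rw [← three_A]; omega)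
  omega

lemma le_A (m : ℕ) : m ≤ A m := by
  induction m with
  | zero => exact le_rfl
  | succ m ih => rw [A]; omega

end Pool.Agent.Q122.DMod
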