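import Mathlib

/-! # Differential operators in characteristic `p`, Bernstein filtration, holonomic modules -/

set_option autoImplicit false

namespace Pool.Agent.Q122.DMod

open MvPolynomial

universe u v

/-- The operator `D_{t,i}` on `k[x_1, ..., x_n]`: `D_{t,i} (x^v) = (v_i choose t) x^{v - t e_i}`
(it is zero on `x^v` if `v_i < t`). -/
noncomputable def dOp (k : Type u) [Field k] (n : ℕ) (t : ℕ) (i : Fin n) :
    Module.End k (MvPolynomial (Fin n) k) :=
  (basisMonomials (Fin n) k).constr k
    (fun v => monomial (v - Finsupp.single i t) ((v i).choose t : k))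

/-- The ring `𝒟` of differential operators: the subalgebra of `End_k k[x_1, ..., x_n]` generated by
the multiplications and all the `D_{t,i}`. -/
noncomputable def DRing (k : Type u) [Field k] (n : ℕ) :
    Subalgebra k (Module.End k (MvPolynomial (Fin n) k)) :=
  Algebra.adjoin k (Set.range (fun f : MvPolynomial (Fin n) k => LinearMap.mulLeft k f) ∪
    {T | ∃ (t : ℕ) (i : Fin n), T = dOp k n t i})

/-- The product `x_1^{a_1} ⋯ x_n^{a_n} D_{t_1,1} ⋯ D_{t_n,n}`. -/
noncomputable def basisOp (k : Type u) [Field k] (n : ℕ) (a t : Fin n → ℕ) :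
    Module.End k (MvPolynomial (Fin n) k) :=
  LinearMap.mulLeft k (∏ i, X i ^ a i) * ((List.finRange n).map fun i => dOp k n (t i) i).prod

/-- The Bernstein filtration: `F_s` is the span of the products `x^a D_t` with `|a| + |t| ≤ s`. -/
noncomputable def bernstein (k : Type u) [Field k] (n : ℕ) (s : ℕ) : Submodule k (DRing k n) :=
  (Submodule.span k {T | ∃ a t : Fin n → ℕ, ∑ i, a i + ∑ i, t i ≤ s ∧ T = basisOp k n a t}).comap
    (DRing k n).val.toLinearMap

section

variable (k : Type u) [Field k] (n : ℕ) (M : Type v) [AddCommGroup M] [Module (DRing k n) M]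
  [Module k M]

/-- The product `V W ⊆ M` of a space `V` of operators and a space `W ⊆ M`. -/
def act (V : Submodule k (DRing k n)) (W : Submodule k M) : Submodule k M :=
  Submodule.span k {m | ∃ d ∈ V, ∃ x ∈ W, m = d • x}

/-- `k`-filtrations of a `𝒟`-module. -/
structure IsKFiltration (V : ℕ → Submodule k M) : Prop where
  mono : Monotone V
  exhaustive : ∀ m : M, ∃ i, m ∈ V i
  smul_mem : ∀ (i j : ℕ) (d : DRing k n) (m : M), d ∈ bernstein k n i → m ∈ V j → d • m ∈ V (i + j)

/-- Holonomic modules: there is a `k`-filtration with `dim M_i ≤ C i ^ n` for `i ≥ 1`. -/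
def IsHolonomic : Prop :=
  ∃ (V : ℕ → Submodule k M) (C : ℝ), IsKFiltration k n M V ∧
    ∀ i ≥ 1, Module.Finite k (V i) ∧ (Module.finrank k (V i) : ℝ) ≤ C * (i : ℝ) ^ n

/-- `dim_k M_i`, where `M_0` is the span of the finite set `S` and `M_i = F_i M_0`. -/
noncomputable def hilb (S : Finset M) (i : ℕ) : ℕ :=
  Module.finrank k (act k n M (bernstein k n i) (Submodule.span k (S : Set M)))

end

end Pool.Agent.Q122.DMod
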