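import Mathlib
import Pool.Agent.Q122.DMod.Defs
import Pool.Agent.Q122.DMod.Comb

/-! # The module `𝒟 x^{-1/3}` in characteristic two -/

set_option autoImplicit false

namespace Pool.Agent.Q122.DMod

open MvPolynomial Filter

/-- the base field -/
abbrev k2 : Type := ZMod 2

/-- the polynomial ring `F_2[x]` -/
abbrev R2 : Type := MvPolynomial (Fin 1) k2

/-- the ring of differential operators -/
abbrev D2 : Type := DRing k2 1

/-- germs at infinity of sequences of polynomials -/
abbrev G2 : Type := Filter.Germ (atTop : Filter ℕ) R2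

/-- `x ^ v` -/
noncomputable def mono (v : ℕ) : R2 := monomial (Finsupp.single 0 v) 1

lemma dOp_mono (t v : ℕ) : dOp k2 1 t 0 (mono v) = (v.choose t : k2) • mono (v - t) := by
  have h1 : mono v = basisMonomials (Fin 1) k2 (Finsupp.single 0 v) := by
    simp [mono, coe_basisMonomials]
  rw [h1, dOp, Module.Basis.constr_basis, mono, smul_monomial]
  congr 1
  · rw [← Finsupp.single_tsub]
  · simp

lemma X_pow_mul_mono (a v : ℕ) : (X 0 : R2) ^ a * mono v = mono (v + a) := by
  rw [mono, mono, X_pow_eq_monomial, monomial_mul, one_mul, ← Finsupp.single_add, add_comm]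

lemma basisOp_mono (a t : Fin 1 → ℕ) (v : ℕ) :
    basisOp k2 1 a t (mono v) = (v.choose (t 0) : k2) • mono (v - t 0 + a 0) := by
  have h1 : (List.finRange 1) = [0] := rfl
  simp only [basisOp, h1, List.map_cons, List.map_nil, List.prod_cons, List.prod_nil, mul_one,
    Finset.univ_unique, Finset.prod_singleton, Fin.default_eq_zero]
  rw [Module.End.mul_apply, dOp_mono, map_smul, LinearMap.mulLeft_apply, X_pow_mul_mono]

lemma basisOp_mem (a t : Fin 1 → ℕ) : basisOp k2 1 a t ∈ DRing k2 1 := by
  have h1 : (List.finRange 1) = [0] := rfl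
  simp only [basisOp, h1, List.map_cons, List.map_nil, List.prod_cons, List.prod_nil, mul_one]
  refine mul_mem ?_ ?_
  · exact Algebra.subset_adjoin (Or.inl ⟨_, rfl⟩)
  · exact Algebra.subset_adjoin (Or.inr ⟨_, _, rfl⟩)

/-- the sequence of the monomials `x ^ (A N + s)` -/
noncomputable def sq (s : ℤ) (N : ℕ) : R2 := mono ((A N + s : ℤ).toNat)

/-- the germ of the sequence of the monomials `x ^ (A N + s)`, i.e. `x ^ (s - 1/3)` -/
noncomputable def e (s : ℤ) : G2 := (sq s : G2)

lemma stableZ {N t : ℕ} (h : t < 4 ^ N) {s : ℤ} (hs : 0 ≤ (A N : ℤ) + s) :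
    ((((A (N + 1) + s : ℤ).toNat.choose t : ℕ)) : ZMod 2) =
      (((A N + s : ℤ).toNat.choose t : ℕ) : ZMod 2) := by
  have h4 : (4 : ℕ) ^ N = 2 ^ (2 * N) := by rw [pow_mul]; norm_num
  have h5 : ((A (N + 1) : ℤ) + s).toNat = ((A N : ℤ) + s).toNat + 2 ^ (2 * N) := by
    have := A_succ' N
    omega
  rw [h5, choose_add_pow, if_neg, add_zero]
  rw [← h4]
  omega

lemma stableZ' (t : ℕ) (s : ℤ) : ∃ N₀ : ℕ, ∀ N ≥ N₀, t < 4 ^ N ∧ 0 ≤ (A N : ℤ) + s ∧
    ((((A N + s : ℤ).toNat.choose t : ℕ)) : ZMod 2) =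
      (((A N₀ + s : ℤ).toNat.choose t : ℕ) : ZMod 2) := by
  refine ⟨t + s.natAbs, fun N hN => ?_⟩
  have h1 : t < 4 ^ (t + s.natAbs) := lt_of_lt_of_le (Nat.lt_pow_self (by norm_num))
    (Nat.pow_le_pow_right (by norm_num) (by omega))
  have h2 : 0 ≤ (A (t + s.natAbs) : ℤ) + s := by
    have := le_A (t + s.natAbs)
    omega
  induction N, hN using Nat.le_induction with
  | base => exact ⟨h1, h2, rfl⟩
  | succ N hN ih =>
    obtain ⟨ih1, ih2, ih3⟩ := ih
    refine ⟨?_, ?_, ?_⟩
    · rw [pow_succ]; omega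
    · have := A_succ' N
      omega
    · rw [stableZ ih1 ih2, ih3]

/-- evaluation of operators on the germ `e s` -/
noncomputable def Phi (s : ℤ) : Module.End k2 R2 →ₗ[k2] G2 where
  toFun T := ((fun N => T (sq s N) : ℕ → R2) : G2)
  map_add' _ _ := rfl
  map_smul' _ _ := rfl

lemma smul_e (d : D2) (s : ℤ) : d • e s = Phi s (d : Module.End k2 R2) := rfl

/-- the value of the binomial coefficient -/
lemma Phi_basisOp (a t : Fin 1 → ℕ) (s : ℤ) :
    ∃ c : k2, Phi s (basisOp k2 1 a t) = c • e (s + a 0 - t 0) ∧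
      (s = 0 → T (t 0) → c = 1) ∧ (s = 0 → ¬ T (t 0) → c = 0) := by
  obtain ⟨N₀, hN₀⟩ := stableZ' (t 0) s
  refine ⟨((A N₀ + s : ℤ).toNat.choose (t 0) : ℕ), ?_, ?_, ?_⟩
  · refine Germ.coe_eq.2 ?_
    filter_upwards [eventually_ge_atTop N₀, eventually_ge_atTop (t 0 + s.natAbs)] with N hN hN'
    obtain ⟨h1, h2, h3⟩ := hN₀ N hN
    change basisOp k2 1 a t (sq s N) = _ • sq _ N
    rw [sq, basisOp_mono, h3, sq]
    congr 2
    have := le_A N
    omega
  · rintro rfl hT
    obtain ⟨h1, h2, h3⟩ := hN₀ N₀ le_rfl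
    simp only [add_zero, Int.toNat_natCast]
    exact (T_iff h1).1 hT
  · rintro rfl hT
    obtain ⟨h1, h2, h3⟩ := hN₀ N₀ le_rfl
    simp only [add_zero, Int.toNat_natCast]
    have h4 := mt (T_iff h1).2 hT
    generalize (((A N₀).choose (t 0) : ℕ) : k2) = c at h4
    revert c
    decide

lemma e_linearIndependent : LinearIndependent k2 e := by
  rw [linearIndependent_iff']
  intro S g hg z hz
  have h1 : (((fun N => ∑ i ∈ S, g i • sq i N) : ℕ → R2) : G2) = 0 := by
    rw [← hg]
    have : ((fun N => ∑ i ∈ S, g i • sq i N) : ℕ → R2) = ∑ i ∈ S, g i • sq i := by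
      funext N
      simp
    rw [this]
    have h2 := map_sum (Germ.coeAddHom (atTop : Filter ℕ) (M := R2)) (fun i => g i • sq i) S
    exact h2
  have h2 : ∀ᶠ N in atTop, ∑ i ∈ S, g i • sq i N = 0 := Germ.coe_eq.1 h1
  obtain ⟨N, hN, hN'⟩ := (h2.and (eventually_ge_atTop (∑ i ∈ S, i.natAbs))).exists
  have hle : ∀ i ∈ S, 0 ≤ (A N : ℤ) + i := by
    intro i hi
    have h3 : i.natAbs ≤ ∑ i ∈ S, i.natAbs := Finset.single_le_sum (fun _ _ => Nat.zero_le _) hi
    have := le_A N
    omega
  have h4 := congrArg (coeff (Finsupp.single 0 ((A N : ℤ) + z).toNat)) hN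
  rw [coeff_sum, Finset.sum_eq_single z] at h4
  · simpa [sq, mono] using h4
  · intro b hb hbz
    rw [coeff_smul, sq, mono, coeff_monomial, if_neg, smul_zero]
    intro h5
    have h6 := DFunLike.congr_fun h5 0
    rw [Finsupp.single_eq_same, Finsupp.single_eq_same] at h6
    have := hle b hb
    have := hle z hz
    omega
  · intro h
    exact absurd hz h

/-- the span of all the `e s` -/
noncomputable def E : Submodule k2 G2 := Submodule.span k2 (Set.range e)

lemma e_mem (s : ℤ) : e s ∈ E := Submodule.subset_span ⟨s, rfl⟩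

lemma Phi_dOp (t : ℕ) (s : ℤ) : Phi s (dOp k2 1 t 0) ∈ E := by
  obtain ⟨c, hc, -⟩ := Phi_basisOp (fun _ => 0) (fun _ => t) s
  have h1 : (List.finRange 1) = [0] := rfl
  have h2 : basisOp k2 1 (fun _ => 0) (fun _ => t) = dOp k2 1 t 0 := by
    refine LinearMap.ext fun f => ?_
    rw [basisOp, h1, List.map_cons, List.map_nil, List.prod_cons, List.prod_nil, mul_one,
      Module.End.mul_apply, LinearMap.mulLeft_apply]
    simp
  rw [h2] at hc
  rw [hc]
  exact Submodule.smul_mem _ _ (e_mem _)

lemma Phi_mulLeft (f : R2) (s : ℤ) : Phi s (LinearMap.mulLeft k2 f) ∈ E := by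
  induction f using MvPolynomial.induction_on' with
  | monomial u c =>
    have hu : u = Finsupp.single 0 (u 0) := by
      refine Finsupp.ext fun i => ?_
      rw [Subsingleton.elim i 0]
      simp
    have h3 : (monomial u c : R2) = c • (∏ i, X i ^ u i) := by
      rw [Finset.univ_unique, Finset.prod_singleton, Fin.default_eq_zero, X_pow_eq_monomial,
        smul_monomial, smul_eq_mul, mul_one, ← hu]
    obtain ⟨c', hc, -⟩ := Phi_basisOp u (fun _ => 0) s
    have h1 : (List.finRange 1) = [0] := rfl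
    have h0 : dOp k2 1 0 0 = 1 := by
      refine (basisMonomials (Fin 1) k2).ext fun v => ?_
      rw [dOp, Module.Basis.constr_basis]
      simp
    have h2 : LinearMap.mulLeft k2 (monomial u c : R2) =
        c • basisOp k2 1 u (fun _ => 0) := by
      refine LinearMap.ext fun f => ?_
      rw [h3, basisOp, h1, List.map_cons, List.map_nil, List.prod_cons, List.prod_nil, mul_one,
        h0, mul_one, LinearMap.smul_apply, LinearMap.mulLeft_apply, LinearMap.mulLeft_apply,
        smul_mul_assoc]
    rw [h2, map_smul, hc]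
    exact Submodule.smul_mem _ _ (Submodule.smul_mem _ _ (e_mem _))
  | add p q hp hq =>
    have : LinearMap.mulLeft k2 (p + q) = LinearMap.mulLeft k2 p + LinearMap.mulLeft k2 q := by
      refine LinearMap.ext fun f => ?_
      rw [LinearMap.add_apply, LinearMap.mulLeft_apply, LinearMap.mulLeft_apply,
        LinearMap.mulLeft_apply, add_mul]
    rw [this, map_add]
    exact add_mem hp hq

/-- the span of the `e s` with `|s| ≤ i` -/
noncomputable def Ei (i : ℕ) : Submodule k2 G2 :=
  Submodule.span k2 (Set.range fun s : Finset.Icc (-(i : ℤ)) i => e s)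

lemma e_mem_Ei {i : ℕ} {s : ℤ} (h1 : -(i : ℤ) ≤ s) (h2 : s ≤ i) : e s ∈ Ei i :=
  Submodule.subset_span ⟨⟨s, Finset.mem_Icc.2 ⟨h1, h2⟩⟩, rfl⟩

lemma Ei_mono : Monotone Ei := by
  intro i j hij
  refine Submodule.span_le.2 ?_
  rintro _ ⟨⟨s, hs⟩, rfl⟩
  have hs' := Finset.mem_Icc.1 hs
  change e s ∈ _
  exact e_mem_Ei (by omega) (by omega)

lemma exists_mem_Ei {x : G2} (hx : x ∈ E) : ∃ i, x ∈ Ei i := by
  induction hx using Submodule.span_induction with
  | mem x h =>
    obtain ⟨s, rfl⟩ := h
    exact ⟨s.natAbs, e_mem_Ei (by omega) (by omega)⟩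
  | zero => exact ⟨0, zero_mem _⟩
  | add x y hx hy h1 h2 =>
    obtain ⟨i, hi⟩ := h1
    obtain ⟨j, hj⟩ := h2
    exact ⟨max i j, add_mem (Ei_mono (le_max_left _ _) hi) (Ei_mono (le_max_right _ _) hj)⟩
  | smul c x hx h =>
    obtain ⟨i, hi⟩ := h
    exact ⟨i, Submodule.smul_mem _ _ hi⟩

/-- An operator, as a linear map of the module of germs. -/
noncomputable def actG (T : Module.End k2 R2) : G2 →ₗ[k2] G2 where
  toFun x := Germ.map T x
  map_add' x y := by
    induction x, y using Germ.inductionOn₂ with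
    | h f g =>
      refine Germ.coe_eq.2 (Eventually.of_forall fun N => ?_)
      exact map_add T (f N) (g N)
  map_smul' c x := by
    induction x using Germ.inductionOn with
    | h f =>
      refine Germ.coe_eq.2 (Eventually.of_forall fun N => ?_)
      exact map_smul T c (f N)

lemma smul_eq_actG (d : D2) (x : G2) : d • x = actG (d : Module.End k2 R2) x := by
  induction x using Germ.inductionOn with
  | h f => rfl

lemma actG_e (T : Module.End k2 R2) (s : ℤ) : actG T (e s) = Phi s T := rfl

lemma actG_one (x : G2) (c : k2) : actG (algebraMap k2 (Module.End k2 R2) c) x = c • x := by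
  induction x using Germ.inductionOn with
  | h f => rfl

lemma actG_add (S T : Module.End k2 R2) (x : G2) : actG (S + T) x = actG S x + actG T x := by
  induction x using Germ.inductionOn with
  | h f => rfl

lemma actG_mul (S T : Module.End k2 R2) (x : G2) : actG (S * T) x = actG S (actG T x) := by
  induction x using Germ.inductionOn with
  | h f => rfl

lemma smul_mem_E (d : D2) {x : G2} (hx : x ∈ E) : d • x ∈ E := by
  have key : ∀ T ∈ DRing k2 1, ∀ x ∈ E, actG T x ∈ E := by
    intro T hT
    induction hT using Algebra.adjoin_induction with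
    | mem T hT =>
      have hs : ∀ s : ℤ, actG T (e s) ∈ E := by
        intro s
        rw [actG_e]
        rcases hT with ⟨f, rfl⟩ | ⟨t, i, rfl⟩
        · exact Phi_mulLeft f s
        · rw [Subsingleton.elim i 0]
          exact Phi_dOp t s
      have : E ≤ E.comap (actG T) := by
        refine Submodule.span_le.2 ?_
        rintro _ ⟨s, rfl⟩
        exact hs s
      exact fun x hx => this hx
    | algebraMap c =>
      intro x hx
      rw [actG_one]
      exact Submodule.smul_mem _ _ hx
    | add S T _ _ h1 h2 =>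
      intro x hx
      rw [actG_add]
      exact add_mem (h1 x hx) (h2 x hx)
    | mul S T _ _ h1 h2 =>
      intro x hx
      rw [actG_mul]
      exact h1 _ (h2 x hx)
  rw [smul_eq_actG]
  exact key d d.2 x hx

/-- operators in level `i` of the Bernstein filtration map level `j` into level `i + j` -/
lemma smul_mem_Ei {i j : ℕ} {d : D2} (hd : d ∈ bernstein k2 1 i) {x : G2} (hx : x ∈ Ei j) :
    d • x ∈ Ei (i + j) := by
  have key : ∀ T ∈ Submodule.span k2 {T | ∃ a t : Fin 1 → ℕ, ∑ i, a i + ∑ i, t i ≤ i ∧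
      T = basisOp k2 1 a t}, ∀ x ∈ Ei j, actG T x ∈ Ei (i + j) := by
    intro T hT
    induction hT using Submodule.span_induction with
    | mem T hT =>
      obtain ⟨a, t, hat, rfl⟩ := hT
      rw [Finset.univ_unique, Finset.sum_singleton, Finset.sum_singleton,
        Fin.default_eq_zero] at hat
      have : Ei j ≤ (Ei (i + j)).comap (actG (basisOp k2 1 a t)) := by
        refine Submodule.span_le.2 ?_
        rintro _ ⟨⟨s, hs⟩, rfl⟩
        have hs' := Finset.mem_Icc.1 hs
        change actG (basisOp k2 1 a t) (e s) ∈ Ei (i + j)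
        rw [actG_e]
        obtain ⟨c, hc, -⟩ := Phi_basisOp a t s
        rw [hc]
        exact Submodule.smul_mem _ _ (e_mem_Ei (by push_cast; omega) (by push_cast; omega))
      exact fun x hx => this hx
    | zero =>
      intro x hx
      have : actG 0 x = 0 := by
        induction x using Germ.inductionOn with
        | h f => rfl
      rw [this]
      exact zero_mem _
    | add S T _ _ h1 h2 =>
      intro x hx
      rw [actG_add]
      exact add_mem (h1 x hx) (h2 x hx)
    | smul c T _ h =>
      intro x hx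
      have : actG (c • T) x = c • actG T x := by
        induction x using Germ.inductionOn with
        | h f => rfl
      rw [this]
      exact Submodule.smul_mem _ _ (h x hx)
  rw [smul_eq_actG]
  exact key d hd x hx

/-- The module `𝒟 x^{-1/3}`, as a submodule of the module of germs. -/
noncomputable def Msub : Submodule D2 G2 := Submodule.span D2 {e 0}

/-- The module `𝒟 x^{-1/3}`. -/
def M2 : Type := Msub

noncomputable instance instM2a : AddCommGroup M2 :=
  @Submodule.addCommGroup D2 G2 inferInstance inferInstance inferInstance Msub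

noncomputable instance instM2m : Module D2 M2 := Submodule.module Msub

noncomputable instance instM2k : Module k2 M2 := Submodule.module' (R := D2) (M := G2) Msub

instance instM2s : IsScalarTower k2 D2 M2 :=
  ⟨fun c d x => Subtype.ext (smul_assoc c d (x.1 : G2))⟩

/-- the inclusion in the module of germs -/
noncomputable def incl : M2 →ₗ[k2] G2 where
  toFun x := x.1
  map_add' _ _ := rfl
  map_smul' _ _ := rfl

lemma incl_injective : Function.Injective incl := Subtype.val_injective

lemma incl_smul (d : D2) (x : M2) : incl (d • x) = d • incl x := rfl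

lemma incl_mem (x : M2) : incl x ∈ E := by
  have key : ∀ y ∈ Msub, y ∈ E := by
    intro y hy
    obtain ⟨d, rfl⟩ := Submodule.mem_span_singleton.1 hy
    exact smul_mem_E d (e_mem 0)
  exact key x.1 x.2

/-- the generator -/
noncomputable def w : M2 := ⟨e 0, Submodule.subset_span rfl⟩

lemma incl_w : incl w = e 0 := rfl

lemma exists_smul_w (x : M2) : ∃ d : D2, x = d • w := by
  obtain ⟨d, hd⟩ := Submodule.mem_span_singleton.1 x.2
  exact ⟨d, Subtype.ext hd.symm⟩

lemma span_w : Submodule.span D2 (({w} : Finset M2) : Set M2) = ⊤ := by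
  rw [Finset.coe_singleton, eq_top_iff]
  intro x _
  obtain ⟨d, rfl⟩ := exists_smul_w x
  exact Submodule.smul_mem _ _ (Submodule.subset_span rfl)

theorem M2_holonomic : IsHolonomic k2 1 M2 := by
  refine ⟨fun i => (Ei i).comap incl, 3, ⟨?_, ?_, ?_⟩, ?_⟩
  · intro i j hij
    exact Submodule.comap_mono (Ei_mono hij)
  · intro m
    exact exists_mem_Ei (incl_mem m)
  · intro i j d m hd hm
    change incl (d • m) ∈ Ei (i + j)
    rw [incl_smul]
    exact smul_mem_Ei hd hm
  · intro i hi
    have hfin : Module.Finite k2 (Ei i) := by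
      unfold Ei
      exact Module.Finite.span_of_finite k2 (Set.finite_range _)
    have hfin2 : Module.Finite k2 ((Ei i).comap incl) := by
      refine Module.Finite.of_injective (incl.restrict (p := (Ei i).comap incl) (q := Ei i)
        fun x hx => hx) ?_
      intro x y hxy
      have := congrArg Subtype.val hxy
      exact Subtype.ext (incl_injective this)
    refine ⟨hfin2, ?_⟩
    have h1 : Module.finrank k2 ((Ei i).comap incl) ≤ Module.finrank k2 (Ei i) := by
      refine LinearMap.finrank_le_finrank_of_injective (f := incl.restrict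
        (p := (Ei i).comap incl) (q := Ei i) fun x hx => hx) ?_
      intro x y hxy
      have := congrArg Subtype.val hxy
      exact Subtype.ext (incl_injective this)
    have h2 : Module.finrank k2 (Ei i) ≤ 2 * i + 1 := by
      have := finrank_range_le_card (R := k2) (fun s : Finset.Icc (-(i : ℤ)) i => e s)
      refine this.trans ?_
      rw [Fintype.card_coe, Int.card_Icc]
      omega
    have h3 : (Module.finrank k2 ((Ei i).comap incl) : ℝ) ≤ ((2 * i + 1 : ℕ) : ℝ) := by
      exact_mod_cast h1.trans h2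
    have h4 : (1 : ℝ) ≤ i := by exact_mod_cast hi
    refine h3.trans ?_
    push_cast
    nlinarith

lemma map_act (i : ℕ) :
    (act k2 1 M2 (bernstein k2 1 i) (Submodule.span k2 (({w} : Finset M2) : Set M2))).map incl =
      Submodule.span k2 (Set.range fun z : Exps i => e z) := by
  refine le_antisymm ?_ ?_
  · rw [act, Submodule.map_span, Submodule.span_le]
    rintro _ ⟨_, ⟨d, hd, x, hx, rfl⟩, rfl⟩
    rw [Finset.coe_singleton] at hx
    obtain ⟨c, rfl⟩ := Submodule.mem_span_singleton.1 hx
    have h1 : incl (d • c • w) = c • Phi 0 (d : Module.End k2 R2) := by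
      rw [incl_smul, map_smul, incl_w, smul_comm, smul_e]
    rw [SetLike.mem_coe, h1]
    refine Submodule.smul_mem _ _ ?_
    have key : Submodule.span k2 {T | ∃ a t : Fin 1 → ℕ, ∑ i, a i + ∑ i, t i ≤ i ∧
        T = basisOp k2 1 a t} ≤
        (Submodule.span k2 (Set.range fun z : Exps i => e z)).comap (Phi 0) := by
      refine Submodule.span_le.2 ?_
      rintro _ ⟨a, t, hat, rfl⟩
      rw [Finset.univ_unique, Finset.sum_singleton, Finset.sum_singleton,
        Fin.default_eq_zero] at hat
      obtain ⟨c, hc, h2, h3⟩ := Phi_basisOp a t 0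
      change Phi 0 (basisOp k2 1 a t) ∈ Submodule.span k2 (Set.range fun z : Exps i => e z)
      rw [hc]
      by_cases hT : T (t 0)
      · refine Submodule.smul_mem _ _ (Submodule.subset_span ⟨⟨0 + a 0 - t 0, ?_⟩, rfl⟩)
        exact mem_Exps.2 ⟨a 0, t 0, hT, hat, by ring⟩
      · rw [h3 rfl hT, zero_smul]
        exact zero_mem _
    exact key hd
  · refine Submodule.span_le.2 ?_
    rintro _ ⟨⟨z, hz⟩, rfl⟩
    obtain ⟨a, t, hT, hat, rfl⟩ := mem_Exps.1 hz
    obtain ⟨c, hc, h2, h3⟩ := Phi_basisOp (fun _ => a) (fun _ => t) 0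
    rw [h2 rfl hT, one_smul] at hc
    refine ⟨(⟨basisOp k2 1 (fun _ => a) (fun _ => t), basisOp_mem _ _⟩ : D2) • w, ?_, ?_⟩
    · refine Submodule.subset_span ⟨_, ?_, w, Submodule.subset_span (by simp), rfl⟩
      refine Submodule.subset_span ⟨fun _ => a, fun _ => t, by simpa using hat, rfl⟩
    · rw [incl_smul, incl_w, smul_e, hc, zero_add]

theorem hilb_eq (i : ℕ) : hilb k2 1 M2 {w} i = (Exps i).card := by
  rw [hilb, (Submodule.equivMapOfInjective incl incl_injective _).finrank_eq, map_act]
  have h := e_linearIndependent.comp (fun z : Exps i => (z : ℤ)) Subtype.val_injective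
  have h2 := finrank_span_eq_card h
  rw [Fintype.card_coe] at h2
  exact h2

lemma le_real (i : ℕ) (hi : 1 ≤ i) :
    (hilb k2 1 M2 {w} i : ℝ) / (i : ℝ) ^ 1 ≤ 9 / 5 + 6 / 5 / (i : ℝ) := by
  have h := card_Exps_le i
  have h1 : (1 : ℝ) ≤ i := by exact_mod_cast hi
  have h2 : (5 : ℝ) * (Exps i).card ≤ 9 * i + 6 := by exact_mod_cast h
  rw [hilb_eq, pow_one, div_le_iff₀ (by linarith)]
  field_simp
  linarith

lemma five_real (m : ℕ) :
    9 / 5 ≤ (hilb k2 1 M2 {w} (5 * A m + 1) : ℝ) / ((5 * A m + 1 : ℕ) : ℝ) ^ 1 := by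
  have h := card_Exps_five m
  have h2 : (9 : ℝ) * A m + 3 ≤ (Exps (5 * A m + 1)).card := by exact_mod_cast h
  have h3 : (0 : ℝ) ≤ A m := by positivity
  rw [hilb_eq, pow_one, le_div_iff₀ (by positivity)]
  push_cast
  linarith

lemma three_real (m : ℕ) (hm : 2 ≤ m) :
    (hilb k2 1 M2 {w} (3 * A m) : ℝ) / ((3 * A m : ℕ) : ℝ) ^ 1 ≤ 3 / 2 := by
  have h := card_Exps_three m
  have h1 := le_A m
  have h2 : ((Exps (3 * A m)).card : ℝ) ≤ 4 * A m + 1 := by exact_mod_cast h
  have h3 : (2 : ℝ) ≤ A m := by exact_mod_cast hm.trans h1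
  rw [hilb_eq, pow_one, div_le_iff₀ (by push_cast; linarith)]
  push_cast
  linarith

lemma tendsto_A : Tendsto A atTop atTop := tendsto_atTop_mono le_A tendsto_id

lemma tendsto_five : Tendsto (fun m => 5 * A m + 1) atTop atTop :=
  tendsto_atTop_mono (fun m => by have := le_A m; simp only [id]; omega) tendsto_id

lemma tendsto_three : Tendsto (fun m => 3 * A m) atTop atTop :=
  tendsto_atTop_mono (fun m => by have := le_A m; simp only [id]; omega) tendsto_id

lemma tendsto_bound : Tendsto (fun i : ℕ => (9 / 5 + 6 / 5 / (i : ℝ) : ℝ)) atTop (nhds (9 / 5)) := by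
  have h := tendsto_const_div_atTop_nhds_zero_nat (6 / 5 : ℝ)
  simpa using h.const_add (9 / 5 : ℝ)

theorem limsup_eq :
    limsup (fun i : ℕ => (hilb k2 1 M2 {w} i : ℝ) / (i : ℝ) ^ 1) atTop = 9 / 5 := by
  have hle : ∀ᶠ i : ℕ in atTop, (hilb k2 1 M2 {w} i : ℝ) / (i : ℝ) ^ 1 ≤ 9 / 5 + 6 / 5 / (i : ℝ) := by
    filter_upwards [eventually_ge_atTop 1] with i hi using le_real i hi
  have hb2 : IsBoundedUnder (· ≤ ·) atTop (fun i : ℕ => (9 / 5 + 6 / 5 / (i : ℝ) : ℝ)) :=
    tendsto_bound.isBoundedUnder_le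
  have hb : IsBoundedUnder (· ≤ ·) atTop
      (fun i : ℕ => (hilb k2 1 M2 {w} i : ℝ) / (i : ℝ) ^ 1) := hb2.mono_le hle
  have hc : IsCoboundedUnder (· ≤ ·) atTop
      (fun i : ℕ => (hilb k2 1 M2 {w} i : ℝ) / (i : ℝ) ^ 1) := by
    refine IsBoundedUnder.isCoboundedUnder_le ⟨0, ?_⟩
    rw [eventually_map]
    exact Eventually.of_forall fun i => by positivity
  refine le_antisymm ?_ ?_
  · refine (limsup_le_limsup hle hc hb2).trans_eq tendsto_bound.limsup_eq
  · refine le_limsup_of_frequently_le ?_ hb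
    exact tendsto_five.frequently (Frequently.of_forall five_real)

theorem not_tendsto (L : ℝ) :
    ¬ Tendsto (fun i : ℕ => (hilb k2 1 M2 {w} i : ℝ) / (i : ℝ) ^ 1) atTop (nhds L) := by
  intro h
  have h1 := ge_of_tendsto' (h.comp tendsto_five) five_real
  have h2 : L ≤ 3 / 2 := by
    refine le_of_tendsto (h.comp tendsto_three) ?_
    filter_upwards [eventually_ge_atTop 2] with m hm using three_real m hm
  norm_num at h1 h2
  linarith

end Pool.Agent.Q122.DMod
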